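import Pool.Agent.K1H78.HS.Sol

/-!
# The hot-spot set of a metric graph is a finite union of points and arcs
-/

set_option autoImplicit false
set_option linter.unusedSectionVars false

namespace Pool.Agent.K1H78.HS

open Set Pool.Agent.R228.QG Pool.Agent.H581R2

variable {V E : Type} [Fintype V] [Fintype E] [DecidableEq V]
variable {Γ : MGraph V E} {α : V → ℝ} {μ : ℝ} {C S : ℝ → ℝ} {N : ℕ}

/-- the condition at the point `z` of the piece `p`, in terms of `t = S z` -/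
def Hot (Γ : MGraph V E) (μ : ℝ) (S : ℝ → ℝ) (N n : ℕ) (b : Fin n → Ix V E N → ℝ) (p : E × Fin N)
    (t : ℝ) : Prop :=
  ∃ a : ℝ, 0 < a ∧ a ^ 2 + μ * t ^ 2 = 1 ∧ ∃ c : Fin n → ℝ,
    ¬ (Le Γ μ S N (fun k => ∑ i, c i * b i k) 0 ∧ Le Γ μ S N (fun k => -∑ i, c i * b i k) 0) ∧
    (Le Γ μ S N (fun k => ∑ i, c i * b i k)
      ((∑ i, c i * b i (Sum.inr (Sum.inl p))) * a + (∑ i, c i * b i (Sum.inr (Sum.inr p))) * t) ∨
    Le Γ μ S N (fun k => -∑ i, c i * b i k)
      (-((∑ i, c i * b i (Sum.inr (Sum.inl p))) * a + (∑ i, c i * b i (Sum.inr (Sum.inr p))) * t)))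

theorem hot_RP (n : ℕ) (b : Fin n → Ix V E N → ℝ) (p : E × Fin N) :
    RP (fun v : Unit → ℝ => Hot Γ μ S N n b p (v ())) := by
  let W : Ix V E N → (Option Unit ⊕ Fin n → ℝ) → ℝ := fun k u => ∑ i, u (Sum.inr i) * b i k
  have hW : ∀ k, RF (W k) := fun k => RF.sum _ fun i => (RF.coord _).mul (RF.const _)
  have ha : RF (fun u : Option Unit ⊕ Fin n → ℝ => u (Sum.inl none)) := RF.coord _
  have ht : RF (fun u : Option Unit ⊕ Fin n → ℝ => u (Sum.inl (some ()))) := RF.coord _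
  have hval : RF (fun u : Option Unit ⊕ Fin n → ℝ => W (Sum.inr (Sum.inl p)) u * u (Sum.inl none) +
      W (Sum.inr (Sum.inr p)) u * u (Sum.inl (some ()))) :=
    ((hW _).mul ha).add ((hW _).mul ht)
  let q : (Option Unit ⊕ Fin n → ℝ) → Prop := fun u =>
    ¬ (Le Γ μ S N (fun k => W k u) 0 ∧ Le Γ μ S N (fun k => -W k u) 0) ∧
    (Le Γ μ S N (fun k => W k u) (W (Sum.inr (Sum.inl p)) u * u (Sum.inl none) +
      W (Sum.inr (Sum.inr p)) u * u (Sum.inl (some ()))) ∨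
    Le Γ μ S N (fun k => -W k u) (-(W (Sum.inr (Sum.inl p)) u * u (Sum.inl none) +
      W (Sum.inr (Sum.inr p)) u * u (Sum.inl (some ())))))
  have hq : RP q :=
    ((RP.Le hW (RF.const 0)).and (RP.Le (fun k => (hW k).neg) (RF.const 0))).not.and
      ((RP.Le hW hval).or (RP.Le (fun k => (hW k).neg) hval.neg))
  have h1 := RP.exists_block n hq
  have ha' : RF (fun u : Option Unit → ℝ => u none) := RF.coord _
  have ht' : RF (fun u : Option Unit → ℝ => u (some ())) := RF.coord _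
  have e1 : RP (fun u : Option Unit → ℝ => u none ^ 2 + μ * u (some ()) ^ 2 = 1) := by
    refine RP.congr (RP.eq ((ha'.mul ha').add ((RF.const μ).mul (ht'.mul ht'))) (RF.const 1))
      fun u => ?_
    rw [pow_two, pow_two]
  have h2 := RP.exists_real ((RP.lt (RF.const 0) ha').and (e1.and h1))
  exact RP.congr h2 fun v => Iff.rfl

/-- the negative of a solution -/
theorem Sol.neg {f : Fn V E} {g : E → ℝ → ℝ} (h : Sol Γ α μ f g) :
    Sol Γ α μ ⟨fun v => -f.vert v, fun e x => -f.edge e x⟩ (fun e x => -g e x) := by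
  have := h.comb h (-1) 0
  simpa using this

theorem Sol.le_iff_neg (hF : Fund μ C S) (hN : 0 < N)
    (hδ : ∀ e, ∀ z, 0 ≤ z → z ≤ Γ.len e / N → 0 < C z)
    {f : Fn V E} {g : E → ℝ → ℝ} (h : Sol Γ α μ f g) (m : ℝ) :
    (∀ Q : Γ.Point, m ≤ f.val Q) ↔ Le Γ μ S N (fun k => -dat Γ N f g k) (-m) := by
  have h1 := h.neg.le_iff hF hN hδ (-m)
  have h2 : dat Γ N ⟨fun v => -f.vert v, fun e x => -f.edge e x⟩ (fun e x => -g e x) =
      fun k => -dat Γ N f g k := by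
    funext k
    rcases k with v | p | p <;> rfl
  rw [h2] at h1
  rw [← h1]
  refine forall_congr' fun Q => ?_
  rcases Q with v | ⟨⟨e, x⟩, hx⟩
  · show m ≤ f.vert v ↔ -f.vert v ≤ -m
    exact neg_le_neg_iff.symm
  · show m ≤ f.edge e x ↔ -f.edge e x ≤ -m
    exact neg_le_neg_iff.symm

theorem second_unique {μ μ' : ℝ} (h : IsSecondEigenvalue Γ α μ) (h' : IsSecondEigenvalue Γ α μ') :
    μ = μ' := by
  obtain ⟨l, hl, h1⟩ := h
  obtain ⟨l', hl', h1'⟩ := h'
  have : l = l' := hl.unique hl'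
  subst this
  exact h1.unique h1'

/-- Hot spots in terms of the semialgebraic condition. -/
theorem hot_iff (hμ : IsSecondEigenvalue Γ α μ) (hF : Fund μ C S) (hN : 0 < N)
    (hδ : ∀ e, ∀ z, 0 ≤ z → z ≤ Γ.len e / N → 0 < C z) {n : ℕ} {b : Fin n → Ix V E N → ℝ}
    (hb : ∀ w : Ix V E N → ℝ,
      (∃ f g, Sol Γ α μ f g ∧ w = dat Γ N f g) ↔ ∃ c : Fin n → ℝ, w = fun k => ∑ i, c i * b i k)
    (e : E) (j : Fin N) {z : ℝ} (hz0 : 0 ≤ z) (hz : z ≤ Γ.len e / N) {x : ℝ}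
    (hx : 0 < x ∧ x < Γ.len e) (hxz : x = (j : ℕ) * (Γ.len e / N) + z) :
    (Sum.inr ⟨(e, x), hx⟩ : Γ.Point) ∈ hotSet Γ α ↔ Hot Γ μ S N n b (e, j) (S z) := by
  have hpiece : ∀ (f : Fn V E) (g : E → ℝ → ℝ), Sol Γ α μ f g →
      f.val (Sum.inr ⟨(e, x), hx⟩ : Γ.Point) = dat Γ N f g (Sum.inr (Sum.inl (e, j))) * C z +
        dat Γ N f g (Sum.inr (Sum.inr (e, j))) * S z := by
    intro f g h
    rw [← h.piece hF hN e j hz0 hz, ← hxz]
    rfl
  constructor
  · rintro ⟨μ', f, hμ', ⟨⟨Q, hQ⟩, g, hg⟩, hmax⟩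
    have : μ' = μ := second_unique hμ' hμ
    subst this
    have hsol : Sol Γ α μ' f g := hg
    obtain ⟨c, hc⟩ := (hb (dat Γ N f g)).1 ⟨f, g, hsol, rfl⟩
    refine ⟨C z, hδ e z hz0 hz, hF.energy z, c, ?_, ?_⟩
    · rintro ⟨h1, h2⟩
      have h1' : Le Γ μ' S N (dat Γ N f g) 0 := by rw [hc]; exact h1
      have h2' : Le Γ μ' S N (fun k => -dat Γ N f g k) (-0) := by rw [hc, neg_zero]; exact h2
      have h3 := (hsol.le_iff hF hN hδ 0).2 h1' Q
      have h4 := (hsol.le_iff_neg hF hN hδ 0).2 h2' Q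
      exact hQ (le_antisymm h3 h4)
    · have hv := hpiece f g hsol
      rcases hmax with h1 | h1
      · left
        have h2 := (hsol.le_iff hF hN hδ _).1 h1
        rw [hv, hc] at h2
        exact h2
      · right
        have h2 := (hsol.le_iff_neg hF hN hδ _).1 h1
        rw [hv, hc] at h2
        exact h2
  · rintro ⟨a, ha, haS, c, hne, hmax⟩
    have haC : a = C z := by
      have h1 := hF.energy z
      have h2 : a ^ 2 = C z ^ 2 := by linarith
      exact (pow_left_inj₀ ha.le (hδ e z hz0 hz).le two_ne_zero).1 h2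
    subst haC
    obtain ⟨f, g, hsol, hw⟩ := (hb _).2 ⟨c, rfl⟩
    have hv := hpiece f g hsol
    have hwk : ∀ k, ∑ i, c i * b i k = dat Γ N f g k := fun k => congrFun hw k
    have hw' : (fun k => -∑ i, c i * b i k) = fun k => -dat Γ N f g k := by
      funext k; rw [hwk]
    rw [hw, hw', hwk, hwk, ← hv] at hmax
    rw [hw, hw'] at hne
    refine ⟨μ, f, hμ, ⟨?_, g, hsol⟩, ?_⟩
    · by_contra hall
      push Not at hall
      apply hne
      refine ⟨(hsol.le_iff hF hN hδ 0).1 fun Q => (hall Q).le, ?_⟩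
      have := (hsol.le_iff_neg hF hN hδ 0).1 fun Q => (hall Q).ge
      rwa [neg_zero] at this
    · rcases hmax with h1 | h1
      · exact Or.inl ((hsol.le_iff hF hN hδ _).2 h1)
      · exact Or.inr ((hsol.le_iff_neg hF hN hδ _).2 h1)

/-- **The hot-spot set consists of finitely many points and open arcs.** -/
theorem locally_constant (Γ : MGraph V E) (α : V → ℝ) : ∃ G : E → Set ℝ, (∀ e, (G e).Finite) ∧
    ∀ (e : E) (x y : ℝ) (hx : 0 < x ∧ x < Γ.len e) (hy : 0 < y ∧ y < Γ.len e), x ≤ y →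
      (∀ z ∈ Icc x y, z ∉ G e) →
      ((Sum.inr ⟨(e, x), hx⟩ : Γ.Point) ∈ hotSet Γ α ↔
        (Sum.inr ⟨(e, y), hy⟩ : Γ.Point) ∈ hotSet Γ α) := by
  classical
  by_cases hex : ∃ μ, IsSecondEigenvalue Γ α μ
  swap
  · refine ⟨fun _ => ∅, fun _ => finite_empty, fun e x y hx hy _ _ => ?_⟩
    constructor
    · rintro ⟨μ, f, h, _⟩
      exact absurd ⟨μ, h⟩ hex
    · rintro ⟨μ, f, h, _⟩
      exact absurd ⟨μ, h⟩ hex
  obtain ⟨μ, hμ⟩ := hex
  obtain ⟨C, S, hF⟩ := exists_fund μ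
  obtain ⟨δ, hδ0, hδ⟩ := hF.exists_delta
  obtain ⟨N₀, hN₀⟩ := exists_nat_gt ((∑ e, Γ.len e) / δ)
  set N := N₀ + 1 with hNdef
  have hN : 0 < N := Nat.succ_pos _
  have hNR : (0 : ℝ) < N := by exact_mod_cast hN
  have hstep : ∀ e, Γ.len e / N ≤ δ := by
    intro e
    rw [div_le_iff₀ hNR]
    have h1 : Γ.len e ≤ ∑ e, Γ.len e :=
      Finset.single_le_sum (f := Γ.len) (fun i _ => (Γ.len_pos i).le) (Finset.mem_univ e)
    rw [div_lt_iff₀ hδ0] at hN₀
    have h2 : (N : ℝ) = N₀ + 1 := by rw [hNdef]; push_cast; ring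
    rw [h2]
    nlinarith
  have hpos : ∀ e, ∀ z, 0 ≤ z → z ≤ Γ.len e / N → 0 < C z := fun e z h0 h1 =>
    hδ z h0 (h1.trans (hstep e))
  obtain ⟨n, b, hb⟩ := exists_basis Γ α μ N
  have htame := fun p : E × Fin N => RP.tame (hot_RP (Γ := Γ) (μ := μ) (S := S) n b p)
  choose F hFt using htame
  refine ⟨fun e => (⋃ j ∈ Finset.range (N + 1), {((j : ℕ) : ℝ) * (Γ.len e / N)}) ∪
    ⋃ j : Fin N, (fun z => ((j : ℕ) : ℝ) * (Γ.len e / N) + z) ''
      (Icc 0 (Γ.len e / N) ∩ S ⁻¹' (F (e, j))), fun e => ?_, ?_⟩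
  · refine Set.Finite.union ?_ ?_
    · exact Set.Finite.biUnion (Finset.finite_toSet _) fun j _ => finite_singleton _
    · refine Set.finite_iUnion fun j => Set.Finite.image _ ?_
      refine Set.Finite.of_injOn (f := S) (t := (F (e, j) : Set ℝ)) (fun z hz => hz.2) ?_
        (Finset.finite_toSet _)
      intro z hz z' hz' heq
      exact (hF.strictMono (hpos e)).injOn hz.1 hz'.1 heq
  · intro e x y hx hy hxy hno
    have hs := step_pos (Γ := Γ) hN e
    obtain ⟨j, z, hz0, hz, hxz⟩ := exists_piece (Γ := Γ) hN e hx.1.le hx.2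
    obtain ⟨j', z', hz0', hz', hyz⟩ := exists_piece (Γ := Γ) hN e hy.1.le hy.2
    have hjj : j = j' := by
      by_contra hne
      rcases lt_or_gt_of_ne hne with hlt | hlt
      · have h1 : ((j : ℕ) : ℝ) + 1 ≤ (j' : ℕ) := by exact_mod_cast hlt
        apply hno (((j' : ℕ) : ℝ) * (Γ.len e / N))
        · constructor
          · rw [hxz]; nlinarith
          · rw [hyz]; linarith
        · left
          rw [mem_iUnion₂]
          exact ⟨j', Finset.mem_range.2 (by omega), rfl⟩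
      · have h1 : ((j' : ℕ) : ℝ) + 1 ≤ (j : ℕ) := by exact_mod_cast hlt
        have : y < x := by rw [hxz, hyz]; nlinarith
        exact absurd hxy (not_le.2 this)
    subst hjj
    rw [hot_iff hμ hF hN hpos hb e j hz0 hz.le hx hxz, hot_iff hμ hF hN hpos hb e j hz0' hz'.le hy hyz]
    have hzz : z ≤ z' := by rw [hxz, hyz] at hxy; linarith
    have hmono := (hF.strictMono (hpos e)).monotoneOn
    refine hFt (e, j) (S z) (S z') (hmono ⟨hz0, hz.le⟩ ⟨hz0', hz'.le⟩ hzz) fun s hs' hsF => ?_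
    obtain ⟨u, hu, hus⟩ := intermediate_value_Icc hzz hF.cont_S.continuousOn hs'
    apply hno (((j : ℕ) : ℝ) * (Γ.len e / N) + u)
    · rw [hxz, hyz]
      constructor <;> linarith [hu.1, hu.2]
    · right
      rw [mem_iUnion]
      refine ⟨j, u, ⟨⟨hz0.trans hu.1, hu.2.trans hz'.le⟩, ?_⟩, rfl⟩
      show S u ∈ (F (e, j) : Set ℝ)
      rw [hus]
      exact hsF

/-- **The hot-spot set is finite or uncountable.** -/
theorem finite_or_uncountable (Γ : MGraph V E) (α : V → ℝ) :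
    (hotSet Γ α).Finite ∨ ¬ (hotSet Γ α).Countable := by
  classical
  by_cases hc : (hotSet Γ α).Countable
  swap
  · exact Or.inr hc
  left
  obtain ⟨G, hG, hloc⟩ := locally_constant Γ α
  have key : ∀ (e : E) (x : ℝ) (hx : 0 < x ∧ x < Γ.len e),
      (Sum.inr ⟨(e, x), hx⟩ : Γ.Point) ∈ hotSet Γ α → x ∈ G e := by
    intro e x hx hmem
    by_contra hxG
    have hopen : IsOpen ((G e)ᶜ ∩ Ioo 0 (Γ.len e)) := ((hG e).isClosed.isOpen_compl).inter isOpen_Ioo
    obtain ⟨ε, hε, hball⟩ := Metric.isOpen_iff.1 hopen x ⟨hxG, hx⟩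
    have hsub : ∀ y ∈ Icc x (x + ε / 2), y ∈ (G e)ᶜ ∩ Ioo 0 (Γ.len e) := by
      intro y hy
      apply hball
      rw [Metric.mem_ball, Real.dist_eq, abs_of_nonneg (by linarith [hy.1])]
      linarith [hy.2]
    let φ : Γ.Point → ℝ := fun Q => Sum.elim (fun _ => 0) (fun p => p.1.2) Q
    have h1 : Icc x (x + ε / 2) ⊆ φ '' hotSet Γ α := by
      intro y hy
      have hy' := hsub y hy
      refine ⟨Sum.inr ⟨(e, y), hy'.2⟩, ?_, rfl⟩
      refine (hloc e x y hx hy'.2 hy.1 fun z hz => ?_).1 hmem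
      exact (hsub z ⟨hz.1, hz.2.trans hy.2⟩).1
    have h2 : (Icc x (x + ε / 2)).Countable := (hc.image φ).mono h1
    have h3 := Cardinal.Real.Icc_countable_iff.1 h2
    linarith
  have h1 : hotSet Γ α ⊆ (range (Sum.inl : V → Γ.Point)) ∪
      (Sum.inr '' {p : {p : E × ℝ // 0 < p.2 ∧ p.2 < Γ.len p.1} | p.1.2 ∈ G p.1.1}) := by
    rintro (v | ⟨⟨e, x⟩, hx⟩) hQ
    · left; exact ⟨v, rfl⟩
    · right
      exact ⟨⟨(e, x), hx⟩, key e x hx hQ, rfl⟩
  refine Set.Finite.subset (Set.Finite.union (Set.finite_range _) (Set.Finite.image _ ?_)) h1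
  refine Set.Finite.of_injOn (f := Subtype.val) (t := ⋃ e : E, (fun x => (e, x)) '' G e) ?_
    Subtype.val_injective.injOn (Set.finite_iUnion fun e => (hG e).image _)
  rintro ⟨⟨e, x⟩, hx⟩ hp
  exact mem_iUnion.2 ⟨e, x, hp, rfl⟩

end Pool.Agent.K1H78.HS
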