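import Mathlib

/-!
# The equation `-f'' = μ f` on an interval
-/

set_option autoImplicit false

namespace Pool.Agent.K1H78.HS

open Set

/-- `C`, `S` are the fundamental solutions of `-f'' = μ f` at `0`. -/
def Fund (μ : ℝ) (C S : ℝ → ℝ) : Prop :=
  (∀ x, HasDerivAt C (-(μ * S x)) x) ∧ (∀ x, HasDerivAt S (C x) x) ∧ C 0 = 1 ∧ S 0 = 0

theorem exists_fund (μ : ℝ) : ∃ C S : ℝ → ℝ, Fund μ C S := by
  rcases lt_trichotomy μ 0 with h | h | h
  · set k := Real.sqrt (-μ) with hk
    have hkpos : 0 < k := Real.sqrt_pos.2 (by linarith)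
    have hk2 : k * k = -μ := Real.mul_self_sqrt (by linarith)
    have hl : ∀ x : ℝ, HasDerivAt (fun x : ℝ => k * x) k x := by
      intro x
      simpa using (hasDerivAt_id x).const_mul k
    refine ⟨fun x => Real.cosh (k * x), fun x => Real.sinh (k * x) / k, ?_, ?_, ?_, ?_⟩
    · intro x
      have h1 := (Real.hasDerivAt_cosh (k * x)).comp x (hl x)
      refine h1.congr_deriv ?_
      have : μ = -(k * k) := by linarith
      rw [this]
      field_simp
    · intro x
      have h1 := ((Real.hasDerivAt_sinh (k * x)).comp x (hl x)).div_const k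
      refine h1.congr_deriv ?_
      field_simp
    · simp
    · simp
  · subst h
    refine ⟨fun _ => 1, fun x => x, ?_, ?_, rfl, rfl⟩
    · intro x
      simpa using hasDerivAt_const x (1 : ℝ)
    · intro x
      exact hasDerivAt_id x
  · set k := Real.sqrt μ with hk
    have hkpos : 0 < k := Real.sqrt_pos.2 h
    have hk2 : k * k = μ := Real.mul_self_sqrt h.le
    have hl : ∀ x : ℝ, HasDerivAt (fun x : ℝ => k * x) k x := by
      intro x
      simpa using (hasDerivAt_id x).const_mul k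
    refine ⟨fun x => Real.cos (k * x), fun x => Real.sin (k * x) / k, ?_, ?_, ?_, ?_⟩
    · intro x
      have h1 := (Real.hasDerivAt_cos (k * x)).comp x (hl x)
      refine h1.congr_deriv ?_
      rw [← hk2]
      field_simp
    · intro x
      have h1 := ((Real.hasDerivAt_sin (k * x)).comp x (hl x)).div_const k
      refine h1.congr_deriv ?_
      field_simp
    · simp
    · simp

variable {μ : ℝ} {C S : ℝ → ℝ}

theorem Fund.energy (h : Fund μ C S) (x : ℝ) : C x ^ 2 + μ * S x ^ 2 = 1 := by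
  obtain ⟨hC, hS, hC0, hS0⟩ := h
  have hd : ∀ x, HasDerivAt (fun x => C x ^ 2 + μ * S x ^ 2) 0 x := by
    intro x
    have h1 := ((hC x).fun_pow 2).add (((hS x).fun_pow 2).const_mul μ)
    refine h1.congr_deriv ?_
    push_cast
    ring
  have h2 : (fun x => C x ^ 2 + μ * S x ^ 2) x = (fun x => C x ^ 2 + μ * S x ^ 2) 0 :=
    is_const_of_deriv_eq_zero (fun x => (hd x).differentiableAt) (fun x => (hd x).deriv) x 0
  simpa [hC0, hS0] using h2

theorem Fund.cont_C (h : Fund μ C S) : Continuous C :=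
  continuous_iff_continuousAt.2 fun x => (h.1 x).continuousAt

theorem Fund.cont_S (h : Fund μ C S) : Continuous S :=
  continuous_iff_continuousAt.2 fun x => (h.2.1 x).continuousAt

/-- Near `0` the function `C` is positive. -/
theorem Fund.exists_delta (h : Fund μ C S) : ∃ δ : ℝ, 0 < δ ∧ ∀ z, 0 ≤ z → z ≤ δ → 0 < C z := by
  have h1 : ∀ᶠ z in nhds (0 : ℝ), 0 < C z := by
    have := h.cont_C.continuousAt (x := (0 : ℝ))
    refine this.eventually (lt_mem_nhds ?_)
    rw [h.2.2.1]; exact one_pos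
  obtain ⟨ε, hε, h2⟩ := Metric.eventually_nhds_iff.1 h1
  refine ⟨ε / 2, by linarith, fun z hz0 hz => h2 ?_⟩
  rw [Real.dist_eq, sub_zero, abs_of_nonneg hz0]
  linarith

theorem Fund.strictMono (h : Fund μ C S) {δ : ℝ} (hδ : ∀ z, 0 ≤ z → z ≤ δ → 0 < C z) :
    StrictMonoOn S (Icc 0 δ) := by
  refine strictMonoOn_of_deriv_pos (convex_Icc 0 δ) h.cont_S.continuousOn fun x hx => ?_
  rw [interior_Icc] at hx
  rw [(h.2.1 x).deriv]
  exact hδ x hx.1.le hx.2.le

/-- The solutions in terms of the values at a point. -/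
theorem Fund.sol (h : Fund μ C S) {f g : ℝ → ℝ} {L : ℝ}
    (hf : ∀ x ∈ Icc 0 L, HasDerivWithinAt f (g x) (Icc 0 L) x)
    (hg : ∀ x ∈ Icc 0 L, HasDerivWithinAt g (-(μ * f x)) (Icc 0 L) x) {x₀ x : ℝ}
    (hx₀ : x₀ ∈ Icc 0 L) (hx : x ∈ Icc 0 L) :
    f x = f x₀ * C (x - x₀) + g x₀ * S (x - x₀) := by
  have hC : ∀ x, HasDerivAt (fun x => C (x - x₀)) (-(μ * S (x - x₀))) x := by
    intro x
    have h1 : HasDerivAt (fun x : ℝ => x - x₀) 1 x := by
      simpa using (hasDerivAt_id x).sub_const x₀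
    have h2 := (h.1 (x - x₀)).comp x h1
    rw [mul_one] at h2
    exact h2
  have hS : ∀ x, HasDerivAt (fun x => S (x - x₀)) (C (x - x₀)) x := by
    intro x
    have h1 : HasDerivAt (fun x : ℝ => x - x₀) 1 x := by
      simpa using (hasDerivAt_id x).sub_const x₀
    have h2 := (h.2.1 (x - x₀)).comp x h1
    rw [mul_one] at h2
    exact h2
  have hconst : ∀ (F : ℝ → ℝ), (∀ x ∈ Icc 0 L, HasDerivWithinAt F 0 (Icc 0 L) x) →
      ∀ x ∈ Icc 0 L, F x = F 0 := by
    intro F hF x hx
    refine constant_of_derivWithin_zero (fun y hy => (hF y hy).differentiableWithinAt) ?_ x hx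
    intro y hy
    have hL : (0 : ℝ) < L := lt_of_le_of_lt hy.1 hy.2
    exact (hF y ⟨hy.1, hy.2.le⟩).derivWithin (uniqueDiffOn_Icc hL y ⟨hy.1, hy.2.le⟩)
  have hA : ∀ x ∈ Icc 0 L, HasDerivWithinAt (fun x => f x * C (x - x₀) - g x * S (x - x₀)) 0
      (Icc 0 L) x := by
    intro x hx
    have := ((hf x hx).fun_mul (hC x).hasDerivWithinAt).fun_sub
      ((hg x hx).fun_mul (hS x).hasDerivWithinAt)
    refine this.congr_deriv ?_
    ring
  have hB : ∀ x ∈ Icc 0 L, HasDerivWithinAt
      (fun x => μ * f x * S (x - x₀) + g x * C (x - x₀)) 0 (Icc 0 L) x := by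
    intro x hx
    have := (((hf x hx).const_mul μ).fun_mul (hS x).hasDerivWithinAt).fun_add
      ((hg x hx).fun_mul (hC x).hasDerivWithinAt)
    refine this.congr_deriv ?_
    ring
  have eA : f x * C (x - x₀) - g x * S (x - x₀) = f x₀ := by
    have h1 := hconst _ hA x hx
    have h2 := hconst _ hA x₀ hx₀
    simp only [sub_self, h.2.2.1, h.2.2.2, mul_one, mul_zero, sub_zero] at h2
    rw [h1]; exact h2.symm
  have eB : μ * f x * S (x - x₀) + g x * C (x - x₀) = g x₀ := by
    have h1 := hconst _ hB x hx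
    have h2 := hconst _ hB x₀ hx₀
    simp only [sub_self, h.2.2.1, h.2.2.2, mul_one, mul_zero, zero_add] at h2
    rw [h1]; exact h2.symm
  have hE := h.energy (x - x₀)
  rw [← eA, ← eB]
  linear_combination (-(f x)) * hE

end Pool.Agent.K1H78.HS
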