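import Pool.Agent.H581R2.SARun

/-!
# Semialgebraic predicates with real parameters, and their tameness in one variable

All the real numbers are used as parameters of the semialgebraic predicates (over `ℚ`) of
`Pool.Agent.H581R2`.
-/

set_option autoImplicit false

namespace Pool.Agent.K1H78.HS

open Pool.Agent.H581R2

variable {ι κ : Type}

/-- polynomial functions with real coefficients -/
def RF (f : (ι → ℝ) → ℝ) : Prop :=
  ∃ F : (ι ⊕ ℝ → ℝ) → ℝ, PF F ∧ ∀ v, f v = F (Sum.elim v id)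

/-- semialgebraic predicates with real parameters -/
def RP (p : (ι → ℝ) → Prop) : Prop :=
  ∃ q : (ι ⊕ ℝ → ℝ) → Prop, SAP q ∧ ∀ v, p v ↔ q (Sum.elim v id)

theorem RF.coord (i : ι) : RF (fun v : ι → ℝ => v i) :=
  ⟨fun u => u (Sum.inl i), PF.coord _, fun _ => rfl⟩

theorem RF.const (r : ℝ) : RF (fun _ : ι → ℝ => r) :=
  ⟨fun u => u (Sum.inr r), PF.coord _, fun _ => rfl⟩

theorem RF.add {f g : (ι → ℝ) → ℝ} (hf : RF f) (hg : RF g) : RF (fun v => f v + g v) := by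
  obtain ⟨F, hF, hF'⟩ := hf
  obtain ⟨G, hG, hG'⟩ := hg
  exact ⟨fun u => F u + G u, hF.add hG, fun v => by simp only [hF', hG']⟩

theorem RF.sub {f g : (ι → ℝ) → ℝ} (hf : RF f) (hg : RF g) : RF (fun v => f v - g v) := by
  obtain ⟨F, hF, hF'⟩ := hf
  obtain ⟨G, hG, hG'⟩ := hg
  exact ⟨fun u => F u - G u, hF.sub hG, fun v => by simp only [hF', hG']⟩

theorem RF.neg {f : (ι → ℝ) → ℝ} (hf : RF f) : RF (fun v => - f v) := by
  obtain ⟨F, hF, hF'⟩ := hf
  exact ⟨fun u => - F u, hF.neg, fun v => by simp only [hF']⟩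

theorem RF.mul {f g : (ι → ℝ) → ℝ} (hf : RF f) (hg : RF g) : RF (fun v => f v * g v) := by
  obtain ⟨F, hF, hF'⟩ := hf
  obtain ⟨G, hG, hG'⟩ := hg
  exact ⟨fun u => F u * G u, hF.mul hG, fun v => by simp only [hF', hG']⟩

theorem RF.sum {α : Type*} (s : Finset α) {f : α → (ι → ℝ) → ℝ} (hf : ∀ a, RF (f a)) :
    RF (fun v => ∑ a ∈ s, f a v) := by
  choose F hF hF' using hf
  exact ⟨fun u => ∑ a ∈ s, F a u, PF.sum s fun a _ => hF a, fun v =>
    Finset.sum_congr rfl fun a _ => hF' a v⟩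

/-- substitution of variables -/
theorem RF.rename {f : (ι → ℝ) → ℝ} (hf : RF f) (σ : ι → κ) :
    RF (fun u : κ → ℝ => f (fun i => u (σ i))) := by
  obtain ⟨F, hF, hF'⟩ := hf
  refine ⟨fun u => F (Sum.elim (fun i => u (Sum.inl (σ i))) (fun r => u (Sum.inr r))),
    hF.comp (fun k => ?_), fun v => ?_⟩
  · cases k with
    | inl i => exact PF.coord _
    | inr r => exact PF.coord _
  · show f _ = F _
    rw [hF']
    congr 1

theorem RP.and {p q : (ι → ℝ) → Prop} (hp : RP p) (hq : RP q) : RP (fun v => p v ∧ q v) := by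
  obtain ⟨P, hP, hP'⟩ := hp
  obtain ⟨Q, hQ, hQ'⟩ := hq
  exact ⟨fun u => P u ∧ Q u, hP.and hQ, fun v => by simp only [hP', hQ']⟩

theorem RP.or {p q : (ι → ℝ) → Prop} (hp : RP p) (hq : RP q) : RP (fun v => p v ∨ q v) := by
  obtain ⟨P, hP, hP'⟩ := hp
  obtain ⟨Q, hQ, hQ'⟩ := hq
  exact ⟨fun u => P u ∨ Q u, hP.or hQ, fun v => by simp only [hP', hQ']⟩

theorem RP.not {p : (ι → ℝ) → Prop} (hp : RP p) : RP (fun v => ¬ p v) := by
  obtain ⟨P, hP, hP'⟩ := hp
  exact ⟨fun u => ¬ P u, hP.not, fun v => by simp only [hP']⟩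

theorem RP.imp {p q : (ι → ℝ) → Prop} (hp : RP p) (hq : RP q) : RP (fun v => p v → q v) := by
  obtain ⟨P, hP, hP'⟩ := hp
  obtain ⟨Q, hQ, hQ'⟩ := hq
  exact ⟨fun u => P u → Q u, hP.imp hQ, fun v => by simp only [hP', hQ']⟩

theorem RP.congr {p q : (ι → ℝ) → Prop} (hp : RP p) (h : ∀ v, q v ↔ p v) : RP q := by
  obtain ⟨P, hP, hP'⟩ := hp
  exact ⟨P, hP, fun v => (h v).trans (hP' v)⟩

theorem RP.le {f g : (ι → ℝ) → ℝ} (hf : RF f) (hg : RF g) : RP (fun v => f v ≤ g v) := by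
  obtain ⟨F, hF, hF'⟩ := hf
  obtain ⟨G, hG, hG'⟩ := hg
  exact ⟨fun u => F u ≤ G u, SAP.le hF hG, fun v => by simp only [hF', hG']⟩

theorem RP.lt {f g : (ι → ℝ) → ℝ} (hf : RF f) (hg : RF g) : RP (fun v => f v < g v) := by
  obtain ⟨F, hF, hF'⟩ := hf
  obtain ⟨G, hG, hG'⟩ := hg
  exact ⟨fun u => F u < G u, SAP.lt hF hG, fun v => by simp only [hF', hG']⟩

theorem RP.eq {f g : (ι → ℝ) → ℝ} (hf : RF f) (hg : RF g) : RP (fun v => f v = g v) := by
  obtain ⟨F, hF, hF'⟩ := hf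
  obtain ⟨G, hG, hG'⟩ := hg
  exact ⟨fun u => F u = G u, SAP.eq hF hG, fun v => by simp only [hF', hG']⟩

theorem RP.forall_fin {α : Type*} [Finite α] {p : α → (ι → ℝ) → Prop} (h : ∀ a, RP (p a)) :
    RP (fun v => ∀ a, p a v) := by
  choose P hP hP' using h
  refine ⟨fun u => ∀ a, P a u, ?_, fun v => forall_congr' fun a => hP' a v⟩
  refine SAP.congr (SAP.exists_fin (fun a => (hP a).not)).not fun v => ?_
  push Not
  rfl

theorem RP.exists_real {p : (Option ι → ℝ) → Prop} (hp : RP p) :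
    RP (fun v : ι → ℝ => ∃ t, p (ext t v)) := by
  obtain ⟨P, hP, hP'⟩ := hp
  let φ : (Option (ι ⊕ ℝ) → ℝ) → (Option ι ⊕ ℝ → ℝ) := fun u =>
    Sum.elim (fun o => o.elim (u none) (fun i => u (some (Sum.inl i)))) (fun r => u (some (Sum.inr r)))
  have hφ : ∀ k, PF (fun u => φ u k) := by
    intro k
    rcases k with (_ | i) | r
    · exact PF.coord none
    · exact PF.coord (some (Sum.inl i))
    · exact PF.coord (some (Sum.inr r))
  refine ⟨_, SAP.exists_real (hP.preimage hφ), fun v => exists_congr fun t => ?_⟩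
  rw [hP']
  have : φ (ext t (Sum.elim v id)) = Sum.elim (ext t v) id := by
    funext k
    rcases k with (_ | i) | r <;> rfl
  rw [this]

theorem RP.forall_real {p : (Option ι → ℝ) → Prop} (hp : RP p) :
    RP (fun v : ι → ℝ => ∀ t, p (ext t v)) := by
  refine RP.congr (RP.exists_real hp.not).not fun v => ?_
  push Not
  rfl

theorem RP.exists_block (n : ℕ) {p : (ι ⊕ Fin n → ℝ) → Prop} (hp : RP p) :
    RP (fun v : ι → ℝ => ∃ x : Fin n → ℝ, p (Sum.elim v x)) := by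
  obtain ⟨P, hP, hP'⟩ := hp
  let φ : ((ι ⊕ ℝ) ⊕ Fin n → ℝ) → ((ι ⊕ Fin n) ⊕ ℝ → ℝ) := fun u =>
    Sum.elim (Sum.elim (fun i => u (Sum.inl (Sum.inl i))) (fun j => u (Sum.inr j)))
      (fun r => u (Sum.inl (Sum.inr r)))
  have hφ : ∀ k, PF (fun u => φ u k) := by
    intro k
    rcases k with (i | j) | r
    · exact PF.coord (Sum.inl (Sum.inl i))
    · exact PF.coord (Sum.inr j)
    · exact PF.coord (Sum.inl (Sum.inr r))
  refine ⟨_, SAP.exists_block n (hP.preimage hφ), fun v => exists_congr fun x => ?_⟩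
  rw [hP']
  have : φ (Sum.elim (Sum.elim v id) x) = Sum.elim (Sum.elim v x) id := by
    funext k
    rcases k with (i | j) | r <;> rfl
  rw [this]

/-- **Tameness.** A semialgebraic predicate of one real variable is locally constant off a finite
set. -/
theorem RP.tame {p : (Unit → ℝ) → Prop} (hp : RP p) : ∃ F : Finset ℝ, ∀ x y : ℝ, x ≤ y →
    (∀ z ∈ Set.Icc x y, z ∉ F) → (p (fun _ => x) ↔ p (fun _ => y)) := by
  classical
  obtain ⟨P, hP, hP'⟩ := hp
  obtain ⟨Q, hQ⟩ := SA.iff hP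
  let pol : MvPolynomial (Unit ⊕ ℝ) ℚ → Polynomial ℝ := fun q =>
    MvPolynomial.aeval (Sum.elim (fun _ => Polynomial.X) (fun r => Polynomial.C r)) q
  have hpol : ∀ (q : MvPolynomial (Unit ⊕ ℝ) ℚ) (t : ℝ),
      (pol q).eval t = MvPolynomial.aeval (Sum.elim (fun _ : Unit => t) id) q := by
    intro q t
    have h := MvPolynomial.comp_aeval_apply
      (Sum.elim (fun _ : Unit => (Polynomial.X : Polynomial ℝ)) (fun r => Polynomial.C r))
      ((Polynomial.aeval t : Polynomial ℝ →ₐ[ℝ] ℝ).restrictScalars ℚ) q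
    have h1 : ((Polynomial.aeval t : Polynomial ℝ →ₐ[ℝ] ℝ).restrictScalars ℚ) (pol q) =
        (pol q).eval t := by
      simp [Polynomial.aeval_def, Polynomial.eval₂_eq_eval_map]
    rw [← h1]
    show _ = _
    rw [h]
    congr 2
    funext k
    rcases k with _ | r <;> simp
  refine ⟨Q.biUnion fun q => (pol q).roots.toFinset, fun x y hxy hno => ?_⟩
  rw [hP', hP']
  refine hQ _ _ fun q hq => ?_
  rw [← hpol, ← hpol]
  by_cases h0 : pol q = 0
  · rw [h0]; simp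
  · refine sign_const (pol q) (I := Set.Icc x y) Set.ordConnected_Icc (fun t ht hroot => ?_)
      (Set.left_mem_Icc.2 hxy) (Set.right_mem_Icc.2 hxy)
    apply hno t ht
    rw [Finset.mem_biUnion]
    exact ⟨q, hq, by rw [Multiset.mem_toFinset, Polynomial.mem_roots h0]; exact hroot⟩

end Pool.Agent.K1H78.HS
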