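import Pool.Agent.R228.QG.Basic
import Pool.Agent.K1H78.HS.RSA
import Pool.Agent.K1H78.HS.Ode

/-!
# The solutions on a metric graph, cut into short pieces
-/

set_option autoImplicit false
set_option linter.unusedSectionVars false

namespace Pool.Agent.K1H78.HS

open Set Pool.Agent.R228.QG Pool.Agent.H581R2

variable {V E : Type} [Fintype V] [Fintype E] [DecidableEq V]

/-- The conditions on an eigenfunction, except that it is not zero. -/
def Sol (Γ : MGraph V E) (α : V → ℝ) (μ : ℝ) (f : Fn V E) (g : E → ℝ → ℝ) : Prop :=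
  (∀ e, f.edge e 0 = f.vert (Γ.src e)) ∧ (∀ e, f.edge e (Γ.len e) = f.vert (Γ.tgt e)) ∧
    (∀ e, ∀ x ∈ Icc 0 (Γ.len e), HasDerivWithinAt (f.edge e) (g e x) (Icc 0 (Γ.len e)) x) ∧
    (∀ e, ∀ x ∈ Icc 0 (Γ.len e),
      HasDerivWithinAt (g e) (-(μ * f.edge e x)) (Icc 0 (Γ.len e)) x) ∧
    ∀ v, (∑ e with Γ.src e = v, g e 0) - (∑ e with Γ.tgt e = v, g e (Γ.len e)) = α v * f.vert v

variable {Γ : MGraph V E} {α : V → ℝ} {μ : ℝ}

omit [Fintype V] in
theorem Sol.zero : Sol Γ α μ ⟨fun _ => 0, fun _ _ => 0⟩ (fun _ _ => 0) := by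
  refine ⟨fun _ => rfl, fun _ => rfl, fun e x _ => hasDerivWithinAt_const x _ 0, fun e x _ => ?_,
    fun v => by simp⟩
  have := hasDerivWithinAt_const x (Icc 0 (Γ.len e)) (0 : ℝ)
  simpa using this

omit [Fintype V] in
theorem Sol.comb {f f' : Fn V E} {g g' : E → ℝ → ℝ} (h : Sol Γ α μ f g) (h' : Sol Γ α μ f' g')
    (r s : ℝ) : Sol Γ α μ ⟨fun v => r * f.vert v + s * f'.vert v,
      fun e x => r * f.edge e x + s * f'.edge e x⟩ (fun e x => r * g e x + s * g' e x) := by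
  obtain ⟨h1, h2, h3, h4, h5⟩ := h
  obtain ⟨h1', h2', h3', h4', h5'⟩ := h'
  refine ⟨fun e => ?_, fun e => ?_, fun e x hx => ?_, fun e x hx => ?_, fun v => ?_⟩
  · show r * f.edge e 0 + s * f'.edge e 0 = _
    rw [h1, h1']
  · show r * f.edge e _ + s * f'.edge e _ = _
    rw [h2, h2']
  · exact ((h3 e x hx).const_mul r).fun_add ((h3' e x hx).const_mul s)
  · refine (((h4 e x hx).const_mul r).fun_add ((h4' e x hx).const_mul s)).congr_deriv ?_
    show _ = -(μ * (r * f.edge e x + s * f'.edge e x))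
    ring
  · show (∑ e with Γ.src e = v, (r * g e 0 + s * g' e 0)) -
      (∑ e with Γ.tgt e = v, (r * g e (Γ.len e) + s * g' e (Γ.len e))) =
        α v * (r * f.vert v + s * f'.vert v)
    rw [Finset.sum_add_distrib, Finset.sum_add_distrib, ← Finset.mul_sum, ← Finset.mul_sum,
      ← Finset.mul_sum, ← Finset.mul_sum]
    linear_combination r * h5 v + s * h5' v

/-- The index set of the data: the values at the vertices, and the values of the function and of its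
derivative at the division points. -/
abbrev Ix (V E : Type) (N : ℕ) : Type := V ⊕ (E × Fin N) ⊕ (E × Fin N)

/-- the data of a function -/
noncomputable def dat (Γ : MGraph V E) (N : ℕ) (f : Fn V E) (g : E → ℝ → ℝ) : Ix V E N → ℝ :=
  Sum.elim f.vert (Sum.elim (fun p => f.edge p.1 ((p.2 : ℕ) * (Γ.len p.1 / N)))
    (fun p => g p.1 ((p.2 : ℕ) * (Γ.len p.1 / N))))

/-- the space of the data of the solutions -/
noncomputable def solSpace (Γ : MGraph V E) (α : V → ℝ) (μ : ℝ) (N : ℕ) :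
    Submodule ℝ (Ix V E N → ℝ) where
  carrier := {w | ∃ f g, Sol Γ α μ f g ∧ w = dat Γ N f g}
  zero_mem' := by
    refine ⟨_, _, Sol.zero, ?_⟩
    funext k
    rcases k with v | p | p <;> rfl
  add_mem' := by
    rintro w w' ⟨f, g, h, rfl⟩ ⟨f', g', h', rfl⟩
    refine ⟨_, _, h.comb h' 1 1, ?_⟩
    funext k
    rcases k with v | p | p <;> simp [dat]
  smul_mem' := by
    rintro c w ⟨f, g, h, rfl⟩
    refine ⟨_, _, h.comb h c 0, ?_⟩
    funext k
    rcases k with v | p | p <;> simp [dat]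

theorem exists_basis (Γ : MGraph V E) (α : V → ℝ) (μ : ℝ) (N : ℕ) :
    ∃ (n : ℕ) (b : Fin n → Ix V E N → ℝ), ∀ w : Ix V E N → ℝ,
      (∃ f g, Sol Γ α μ f g ∧ w = dat Γ N f g) ↔ ∃ c : Fin n → ℝ, w = fun k => ∑ i, c i * b i k := by
  have hfg : (solSpace Γ α μ N).FG := IsNoetherian.noetherian _
  obtain ⟨n, b, hb⟩ := Submodule.fg_iff_exists_fin_generating_family.1 hfg
  refine ⟨n, b, fun w => ?_⟩
  have h1 : w ∈ solSpace Γ α μ N ↔ ∃ c : Fin n → ℝ, ∑ i, c i • b i = w := by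
    rw [← hb, Submodule.mem_span_range_iff_exists_fun]
  refine h1.trans (exists_congr fun c => ?_)
  constructor
  · intro h
    rw [← h]
    funext k
    simp [Finset.sum_apply]
  · intro h
    rw [h]
    funext k
    simp [Finset.sum_apply]

/-- The function with data `w` is at most `m` everywhere. -/
def Le (Γ : MGraph V E) (μ : ℝ) (S : ℝ → ℝ) (N : ℕ) (w : Ix V E N → ℝ) (m : ℝ) : Prop :=
  (∀ v, w (Sum.inl v) ≤ m) ∧ ∀ p : E × Fin N, ∀ a b : ℝ, a ^ 2 + μ * b ^ 2 = 1 → 0 < a → 0 ≤ b →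
    b ≤ S (Γ.len p.1 / N) → w (Sum.inr (Sum.inl p)) * a + w (Sum.inr (Sum.inr p)) * b ≤ m

variable {C S : ℝ → ℝ} {N : ℕ} {δ : ℝ}

omit [Fintype V] [Fintype E] [DecidableEq V] in
theorem step_pos (hN : 0 < N) (e : E) : 0 < Γ.len e / N :=
  div_pos (Γ.len_pos e) (by exact_mod_cast hN)

omit [Fintype V] [Fintype E] [DecidableEq V] in
theorem exists_piece (hN : 0 < N) (e : E) {x : ℝ} (hx0 : 0 ≤ x) (hx : x < Γ.len e) :
    ∃ (j : Fin N) (z : ℝ), 0 ≤ z ∧ z < Γ.len e / N ∧ x = (j : ℕ) * (Γ.len e / N) + z := by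
  have hs := step_pos (Γ := Γ) hN e
  have hN' : (0 : ℝ) < N := by exact_mod_cast hN
  set s := Γ.len e / N with hsdef
  have hlen : Γ.len e = N * s := by rw [hsdef]; field_simp
  have h1 : (⌊x / s⌋₊ : ℝ) ≤ x / s := Nat.floor_le (div_nonneg hx0 hs.le)
  have h2 : x / s < ⌊x / s⌋₊ + 1 := Nat.lt_floor_add_one _
  have h3 : ⌊x / s⌋₊ < N := by
    have : x / s < N := by rw [div_lt_iff₀ hs, ← hlen]; exact hx
    exact_mod_cast lt_of_le_of_lt h1 this
  refine ⟨⟨⌊x / s⌋₊, h3⟩, x - ⌊x / s⌋₊ * s, ?_, ?_, ?_⟩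
  · have := mul_le_mul_of_nonneg_right h1 hs.le
    rw [div_mul_cancel₀ _ hs.ne'] at this
    linarith
  · have := mul_lt_mul_of_pos_right h2 hs
    rw [div_mul_cancel₀ _ hs.ne'] at this
    linarith
  · show x = (⌊x / s⌋₊ : ℝ) * s + (x - ⌊x / s⌋₊ * s)
    ring

omit [Fintype V] [Fintype E] [DecidableEq V] in
theorem piece_le (hN : 0 < N) (e : E) (j : Fin N) {z : ℝ} (hz : z ≤ Γ.len e / N) :
    (j : ℕ) * (Γ.len e / N) + z ≤ Γ.len e := by
  have hs := step_pos (Γ := Γ) hN e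
  have hN' : (0 : ℝ) < N := by exact_mod_cast hN
  set s := Γ.len e / N with hsdef
  have hlen : Γ.len e = N * s := by rw [hsdef]; field_simp
  have h1 : ((j : ℕ) : ℝ) + 1 ≤ N := by exact_mod_cast j.2
  nlinarith

omit [Fintype V] in
/-- the values on a piece -/
theorem Sol.piece (hF : Fund μ C S) (hN : 0 < N) {f : Fn V E} {g : E → ℝ → ℝ}
    (h : Sol Γ α μ f g) (e : E) (j : Fin N) {z : ℝ} (hz0 : 0 ≤ z) (hz : z ≤ Γ.len e / N) :
    f.edge e ((j : ℕ) * (Γ.len e / N) + z) =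
      dat Γ N f g (Sum.inr (Sum.inl (e, j))) * C z + dat Γ N f g (Sum.inr (Sum.inr (e, j))) * S z := by
  have hs := step_pos (Γ := Γ) hN e
  have h0 : (0 : ℝ) ≤ (j : ℕ) * (Γ.len e / N) := mul_nonneg (Nat.cast_nonneg _) hs.le
  have h1 : (j : ℕ) * (Γ.len e / N) ∈ Icc 0 (Γ.len e) := by
    refine ⟨h0, ?_⟩
    have := piece_le (Γ := Γ) hN e j (z := 0) hs.le
    linarith
  have h2 : (j : ℕ) * (Γ.len e / N) + z ∈ Icc 0 (Γ.len e) :=
    ⟨by linarith, piece_le hN e j hz⟩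
  have := hF.sol (h.2.2.1 e) (h.2.2.2.1 e) h1 h2
  rw [this]
  simp [dat]

omit [Fintype V] in
/-- the bound at all the points of the closed edges -/
theorem Sol.edge_le {f : Fn V E} {g : E → ℝ → ℝ} (h : Sol Γ α μ f g) {m : ℝ}
    (hm : ∀ Q : Γ.Point, f.val Q ≤ m) (e : E) {x : ℝ} (hx : x ∈ Icc 0 (Γ.len e)) :
    f.edge e x ≤ m := by
  rcases eq_or_lt_of_le hx.1 with h0 | h0
  · rw [← h0, h.1 e]
    exact hm (Sum.inl _)
  · rcases eq_or_lt_of_le hx.2 with h1 | h1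
    · rw [h1, h.2.1 e]
      exact hm (Sum.inl _)
    · exact hm (Sum.inr ⟨(e, x), h0, h1⟩)

/-- a point of the arc -/
theorem arc_point (hF : Fund μ C S) {s : ℝ} (hs0 : 0 ≤ s) (hδ : ∀ z, 0 ≤ z → z ≤ s → 0 < C z)
    {a b : ℝ} (hab : a ^ 2 + μ * b ^ 2 = 1) (ha : 0 < a) (hb : 0 ≤ b) (hbs : b ≤ S s) :
    ∃ z, 0 ≤ z ∧ z ≤ s ∧ C z = a ∧ S z = b := by
  have h1 : b ∈ Icc (S 0) (S s) := ⟨by rw [hF.2.2.2]; exact hb, hbs⟩
  obtain ⟨z, hz, hzb⟩ := intermediate_value_Icc hs0 hF.cont_S.continuousOn h1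
  refine ⟨z, hz.1, hz.2, ?_, hzb⟩
  have h2 := hF.energy z
  rw [hzb] at h2
  have h3 : C z ^ 2 = a ^ 2 := by linarith
  exact (pow_left_inj₀ (hδ z hz.1 hz.2).le ha.le two_ne_zero).1 h3

theorem Sol.le_iff (hF : Fund μ C S) (hN : 0 < N) (hδ : ∀ e, ∀ z, 0 ≤ z → z ≤ Γ.len e / N → 0 < C z)
    {f : Fn V E} {g : E → ℝ → ℝ} (h : Sol Γ α μ f g) (m : ℝ) :
    (∀ Q : Γ.Point, f.val Q ≤ m) ↔ Le Γ μ S N (dat Γ N f g) m := by
  constructor
  · intro hm
    refine ⟨fun v => hm (Sum.inl v), ?_⟩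
    rintro ⟨e, j⟩ a b hab ha hb hbs
    have hs := step_pos (Γ := Γ) hN e
    obtain ⟨z, hz0, hz, rfl, rfl⟩ := arc_point hF hs.le (hδ e) hab ha hb hbs
    rw [← h.piece hF hN e j hz0 hz]
    exact h.edge_le hm e ⟨add_nonneg (mul_nonneg (Nat.cast_nonneg _) hs.le) hz0, piece_le hN e j hz⟩
  · rintro ⟨h1, h2⟩ Q
    rcases Q with v | ⟨⟨e, x⟩, hx⟩
    · exact h1 v
    · show f.edge e x ≤ m
      have hs := step_pos (Γ := Γ) hN e
      obtain ⟨j, z, hz0, hz, rfl⟩ := exists_piece (Γ := Γ) hN e hx.1.le hx.2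
      rw [h.piece hF hN e j hz0 hz.le]
      have hmono := hF.strictMono (hδ e)
      refine h2 (e, j) (C z) (S z) (hF.energy z) (hδ e z hz0 hz.le) ?_ ?_
      · rw [← hF.2.2.2]
        exact hmono.monotoneOn (left_mem_Icc.2 hs.le) ⟨hz0, hz.le⟩ hz0
      · exact hmono.monotoneOn ⟨hz0, hz.le⟩ (right_mem_Icc.2 hs.le) hz.le

/-- the bound is a semialgebraic condition -/
theorem RP.Le {ι : Type} {W : Ix V E N → (ι → ℝ) → ℝ} {m : (ι → ℝ) → ℝ} (hW : ∀ k, RF (W k))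
    (hm : RF m) : RP (fun v => Le Γ μ S N (fun k => W k v) (m v)) := by
  refine RP.and (RP.forall_fin fun v => RP.le (hW _) hm) (RP.forall_fin fun p => ?_)
  let q : (Option (Option ι) → ℝ) → Prop := fun u =>
    u (some none) ^ 2 + μ * u none ^ 2 = 1 → 0 < u (some none) → 0 ≤ u none →
      u none ≤ S (Γ.len p.1 / N) →
      W (Sum.inr (Sum.inl p)) (fun i => u (some (some i))) * u (some none) +
        W (Sum.inr (Sum.inr p)) (fun i => u (some (some i))) * u none ≤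
          m (fun i => u (some (some i)))
  have hq : RP q := by
    have ha : RF (fun u : Option (Option ι) → ℝ => u (some none)) := RF.coord _
    have hb : RF (fun u : Option (Option ι) → ℝ => u none) := RF.coord _
    have e1 : RP (fun u : Option (Option ι) → ℝ => u (some none) ^ 2 + μ * u none ^ 2 = 1) := by
      refine RP.congr (RP.eq ((ha.mul ha).add ((RF.const μ).mul (hb.mul hb))) (RF.const 1))
        fun u => ?_
      rw [pow_two, pow_two]
    exact e1.imp ((RP.lt (RF.const 0) ha).imp ((RP.le (RF.const 0) hb).imp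
      ((RP.le hb (RF.const _)).imp (RP.le
        ((((hW (Sum.inr (Sum.inl p))).rename (fun i => some (some i))).mul ha).add
        (((hW (Sum.inr (Sum.inr p))).rename (fun i => some (some i))).mul hb))
        (hm.rename (fun i => some (some i)))))))
  exact RP.congr (RP.forall_real (RP.forall_real hq)) fun v => Iff.rfl

end Pool.Agent.K1H78.HS
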